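import Mathlib
import Pool.Agent.H.MP_8a557e_co.Basic

set_option autoImplicit false

namespace Pool.Agent.H.MP_96963f_co

open Pool.Agent.H.MP_8a557e_co Matrix

attribute [local instance] Matrix.seminormedAddCommGroup

def av {n : ℕ} (f : (Fin n → Bool) → Bool) (x : Fin n → Bool) : Option (Fin n) → ℤ :=
  fun o => (if f x then 1 else -1) * (o.elim 1 fun i => if x i then 1 else 0)

lemma av_abs {n : ℕ} (f : (Fin n → Bool) → Bool) (x : Fin n → Bool) (o : Option (Fin n)) :
    |av f x o| ≤ 1 := by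
  unfold av
  cases o with
  | none => by_cases h : f x = true <;> simp [h]
  | some i => by_cases h : f x = true <;> by_cases h' : x i = true <;> simp [h, h']

lemma hull {n : ℕ} (f : (Fin n → Bool) → Bool) (hf : ¬ Wtd f) :
    (0 : Option (Fin n) → ℝ) ∈ convexHull ℝ (Set.range fun x o => ((av f x o : ℤ) : ℝ)) := by
  by_contra h
  obtain ⟨φ, u, h0, h1⟩ := geometric_hahn_banach_point_closed (convex_convexHull ℝ _)
    ((Set.finite_range _).isClosed_convexHull ℝ) h
  apply hf
  refine ⟨fun i => φ (Pi.single (some i) 1), - φ (Pi.single none 1), fun x => ?_⟩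
  have h2 := h1 _ (subset_convexHull ℝ _ ⟨x, rfl⟩)
  have h3 : φ (fun o => ((av f x o : ℤ) : ℝ)) = ∑ o, ((av f x o : ℤ) : ℝ) * φ (Pi.single o 1) := by
    have : (fun o => ((av f x o : ℤ) : ℝ)) = ∑ o, ((av f x o : ℤ) : ℝ) • (Pi.single o (1 : ℝ) : Option (Fin n) → ℝ) := by
      ext o
      simp [Finset.sum_apply, Pi.single_apply]
    rw [this, map_sum]
    simp
  simp only [map_zero] at h0
  rw [h3, Fintype.sum_option] at h2
  have h4 : ∀ i, ((av f x (some i) : ℤ) : ℝ) * φ (Pi.single (some i) 1) =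
      (if f x then 1 else -1) * (φ (Pi.single (some i) 1) * (if x i then 1 else 0)) := by
    intro i
    unfold av
    by_cases h : f x = true <;> by_cases h' : x i = true <;> simp [h, h']
  simp only [h4, ← Finset.mul_sum] at h2
  by_cases h : f x = true
  · simp only [av, h, if_true, Option.elim] at h2
    simp only [h, true_iff]
    push_cast at h2
    linarith
  · simp only [av, h, Option.elim] at h2
    simp only [h]
    push_cast at h2
    simp only [Bool.false_eq_true, false_iff, not_le] at h2 ⊢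
    linarith

lemma mk {ι : Type} [Fintype ι] (ν : ι → ℕ) (p : ι → Prop) [DecidablePred p] (j : ℕ)
    (hj : j = ∑ k with p k, ν k) :
    ∃ X : Fin j → ι, (∀ a, p (X a)) ∧ ∀ g : ι → ℤ, ∑ a, g (X a) = ∑ k with p k, ν k * g k := by
  have hc : Fintype.card (Σ k : {k // p k}, Fin (ν k)) = j := by
    rw [Fintype.card_sigma, hj]
    simp only [Fintype.card_fin]
    exact (Finset.sum_subtype _ (by simp) ν).symm
  let e := Fintype.equivFinOfCardEq hc
  refine ⟨fun a => (e.symm a).1.1, fun a => (e.symm a).1.2, fun g => ?_⟩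
  rw [Equiv.sum_comp e.symm (fun q => g q.1.1), Fintype.sum_sigma]
  simp only [Finset.sum_const, Finset.card_univ, Fintype.card_fin, nsmul_eq_mul]
  exact (Finset.sum_subtype _ (by simp) (fun k => (ν k : ℤ) * g k)).symm

lemma small {n : ℕ} (f : (Fin n → Bool) → Bool) (hf : ¬ Wtd f) :
    ∃ (ι : Type) (_ : Fintype ι) (x : ι → Fin n → Bool) (ν : ι → ℕ), Fintype.card ι ≤ n + 2 ∧
      (∃ k, 0 < ν k) ∧ (∀ k, ν k ≤ ((n + 2) * (n + 1)) ^ (n + 1)) ∧
      ∀ o, ∑ k, (ν k : ℤ) * av f (x k) o = 0 := by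
  classical
  obtain ⟨ι, hι, z, w, hz, hind, hw, hw1, hw0⟩ := eq_pos_convex_span_of_mem_convexHull (hull f hf)
  have hx : ∀ k, ∃ x, (fun o => ((av f x o : ℤ) : ℝ)) = z k := fun k => hz ⟨k, rfl⟩
  choose x hx using hx
  have hzx : ∀ k o, z k o = ((av f (x k) o : ℤ) : ℝ) := fun k o => (congrFun (hx k) o).symm
  have hcard : Fintype.card ι ≤ n + 2 := by
    have h1 := hind.card_le_finrank_succ
    have h2 := Submodule.finrank_le (vectorSpan ℝ (Set.range z))
    simp at h2
    omega
  have hw0' : ∀ o, ∑ k, w k * z k o = 0 := fun o => by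
    have := congrFun hw0 o
    simpa [Finset.sum_apply] using this
  obtain ⟨i0⟩ : Nonempty ι := by
    by_contra h
    rw [not_nonempty_iff] at h
    simp at hw1
  have hα : Fintype.card {i // i ≠ i0} = Fintype.card ι - 1 := by simp
  have hpos : 0 < Fintype.card ι := Fintype.card_pos_iff.2 ⟨i0⟩
  have hα0 : 0 < Fintype.card {i // i ≠ i0} := by
    rw [Fintype.card_pos_iff]
    by_contra h
    have h1 : ∀ i, i = i0 := fun i => by
      by_contra h'
      exact h ⟨⟨i, h'⟩⟩
    have h2 := hw0' none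
    rw [Finset.sum_eq_single i0 (fun b _ hb => absurd (h1 b) hb) (by simp), hzx] at h2
    have h3 := (hw i0).ne'
    unfold av at h2
    by_cases h : f (x i0) = true <;> simp [h, h3] at h2
  let A : Matrix {i // i ≠ i0} ι ℤ := fun i k => ∑ o, av f (x i) o * av f (x k) o
  obtain ⟨t, ht0, hAt, hn⟩ := Int.Matrix.exists_ne_zero_int_vec_norm_le A (by omega) hα0
  have hA : ‖A‖ ≤ n + 1 := by
    rw [Matrix.norm_le_iff (by positivity)]
    intro i k
    rw [Int.norm_eq_abs]
    have : |A i k| ≤ n + 1 := by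
      refine (Finset.abs_sum_le_sum_abs _ _).trans ?_
      refine (Finset.sum_le_sum (g := fun _ => 1) fun o _ => ?_).trans (by simp)
      rw [abs_mul]
      exact mul_le_one₀ (av_abs _ _ _) (abs_nonneg _) (av_abs _ _ _)
    exact_mod_cast this
  have hb : ‖t‖ ≤ ((((n + 2) * (n + 1)) ^ (n + 1) : ℕ) : ℝ) := by
    refine hn.trans ?_
    have e1 : ((Fintype.card ι : ℕ) : ℝ) - (Fintype.card {i // i ≠ i0} : ℕ) = 1 := by
      rw [hα, Nat.cast_sub hpos]; simp
    rw [e1, div_one, Real.rpow_natCast]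
    push_cast
    have e2 : (Fintype.card ι : ℝ) * max 1 ‖A‖ ≤ (n + 2) * (n + 1) := by
      apply mul_le_mul (by exact_mod_cast hcard) (max_le (by linarith [(Nat.cast_nonneg n : (0 : ℝ) ≤ n)]) hA)
        (by positivity) (by positivity)
    refine (pow_le_pow_left₀ (by positivity) e2 _).trans ?_
    apply pow_le_pow_right₀
    · nlinarith [(Nat.cast_nonneg n : (0 : ℝ) ≤ n)]
    · omega
  let v : Option (Fin n) → ℝ := fun o => ∑ k, (t k : ℝ) * z k o
  have hv1 : ∀ i, i ≠ i0 → ∑ o, z i o * v o = 0 := by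
    intro i hi
    have h1 := congrFun hAt ⟨i, hi⟩
    simp only [Matrix.mulVec, dotProduct, A, Pi.zero_apply] at h1
    have h2 : ((∑ k, (∑ o, av f (x i) o * av f (x k) o) * t k : ℤ) : ℝ) = 0 := by exact_mod_cast h1
    push_cast at h2
    simp only [v, Finset.mul_sum, hzx]
    rw [Finset.sum_comm, ← h2]
    refine Finset.sum_congr rfl fun k _ => ?_
    rw [Finset.sum_mul]
    exact Finset.sum_congr rfl fun o _ => by ring
  have hv2 : ∀ i, ∑ o, z i o * v o = 0 := by
    intro i
    by_cases hi : i = i0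
    · have h1 : ∑ k, w k * ∑ o, z k o * v o = 0 := by
        rw [Finset.sum_congr rfl fun k _ => Finset.mul_sum Finset.univ (fun o => z k o * v o) (w k)]
        rw [Finset.sum_comm]
        refine Finset.sum_eq_zero fun o _ => ?_
        have : ∑ k, w k * (z k o * v o) = (∑ k, w k * z k o) * v o := by
          rw [Finset.sum_mul]; exact Finset.sum_congr rfl fun k _ => by ring
        rw [this, hw0', zero_mul]
      rw [Finset.sum_eq_single i0 (fun b _ hb => by rw [hv1 b hb, mul_zero]) (by simp)] at h1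
      rw [hi]
      exact (mul_eq_zero.1 h1).resolve_left (hw i0).ne'
    · exact hv1 i hi
  have hv3 : ∀ o, v o = 0 := by
    have h1 : ∑ o, v o * v o = 0 := by
      have : ∑ o, v o * v o = ∑ k, (t k : ℝ) * ∑ o, z k o * v o := by
        rw [Finset.sum_congr rfl fun k _ => Finset.mul_sum Finset.univ (fun o => z k o * v o) (t k : ℝ)]
        rw [Finset.sum_comm]
        refine Finset.sum_congr rfl fun o _ => ?_
        conv_lhs => arg 1; simp only [v]
        rw [Finset.sum_mul]
        exact Finset.sum_congr rfl fun k _ => by ring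
      rw [this]
      exact Finset.sum_eq_zero fun k _ => by rw [hv2, mul_zero]
    intro o
    have := (Finset.sum_eq_zero_iff_of_nonneg fun o _ => mul_self_nonneg (v o)).1 h1 o (Finset.mem_univ _)
    exact mul_self_eq_zero.1 this
  set S : ℝ := ∑ k, (t k : ℝ) with hS
  have hts : ∀ k, (t k : ℝ) = S * w k := by
    have := hind.eq_zero_of_sum_eq_zero (s := Finset.univ) (w := fun k => (t k : ℝ) - S * w k)
      (by rw [Finset.sum_sub_distrib, ← Finset.mul_sum, hw1]; simp [hS])
      (by
        ext o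
        simp only [Finset.sum_apply, Pi.smul_apply, smul_eq_mul, Pi.zero_apply, sub_mul]
        rw [Finset.sum_sub_distrib]
        have h1 := hv3 o
        simp only [v] at h1
        rw [h1]
        simp only [mul_assoc, ← Finset.mul_sum, hw0']
        simp)
    intro k
    linarith [this k (Finset.mem_univ _)]
  refine ⟨ι, hι, x, fun k => (t k).natAbs, hcard, ?_, fun k => ?_, fun o => ?_⟩
  · by_contra h
    push Not at h
    apply ht0
    ext k
    have := h k
    simp only [Pi.zero_apply]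
    omega
  · have h1 := (norm_le_pi_norm t k).trans hb
    rw [Int.norm_eq_abs] at h1
    have h2 : (((t k).natAbs : ℕ) : ℝ) = |(t k : ℝ)| := by simp
    rw [← h2] at h1
    exact_mod_cast h1
  · have : ((∑ k, (((t k).natAbs : ℕ) : ℤ) * av f (x k) o : ℤ) : ℝ) = 0 := by
      push_cast
      have : ∀ k, |(t k : ℝ)| * (av f (x k) o : ℝ) = |S| * (w k * z k o) := by
        intro k
        rw [hts, abs_mul, abs_of_pos (hw k), hzx]; ring
      simp only [this, ← Finset.mul_sum, hw0', mul_zero]
    exact Int.cast_eq_zero.1 this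

theorem upper {n : ℕ} (f : (Fin n → Bool) → Bool) (hf : ¬ Wtd f) :
    ∃ j, 0 < j ∧ j ≤ (n + 2) ^ (2 * n + 3) ∧ Trade f j := by
  classical
  obtain ⟨ι, hι, x, ν, hc, ⟨k0, hk0⟩, hb, hs⟩ := small f hf
  have key : ∀ g : ι → ℤ, ∑ k, (ν k : ℤ) * ((if f (x k) then 1 else -1) * g k) =
      ∑ k with f (x k) = true, ν k * g k - ∑ k with ¬ f (x k) = true, ν k * g k := by
    intro g
    rw [Finset.sum_filter, Finset.sum_filter, ← Finset.sum_sub_distrib]
    refine Finset.sum_congr rfl fun k _ => ?_
    by_cases h : f (x k) = true <;> simp [h]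
  have h0 := hs none
  simp only [av, Option.elim] at h0
  rw [key (fun _ => 1)] at h0
  simp only [mul_one] at h0
  have h1 : ∑ k with f (x k) = true, ν k = ∑ k with ¬ f (x k) = true, ν k := by
    have : ((∑ k with f (x k) = true, ν k : ℕ) : ℤ) = ((∑ k with ¬ f (x k) = true, ν k : ℕ) : ℤ) := by
      push_cast; linarith
    exact_mod_cast this
  have h2 := Finset.sum_filter_add_sum_filter_not Finset.univ (fun k => f (x k) = true) ν
  have h3 : ν k0 ≤ ∑ k, ν k := Finset.single_le_sum (f := ν) (fun _ _ => Nat.zero_le _) (Finset.mem_univ _)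
  have h4 : ∑ k, ν k ≤ (n + 2) * ((n + 2) * (n + 1)) ^ (n + 1) := by
    refine (Finset.sum_le_sum (g := fun _ => ((n + 2) * (n + 1)) ^ (n + 1)) fun k _ => hb k).trans ?_
    simp only [Finset.sum_const, Finset.card_univ, smul_eq_mul]
    exact Nat.mul_le_mul_right _ hc
  have h5 : (n + 2) * ((n + 2) * (n + 1)) ^ (n + 1) ≤ (n + 2) ^ (2 * n + 3) := by
    have : ((n + 2) * (n + 1)) ^ (n + 1) ≤ ((n + 2) * (n + 2)) ^ (n + 1) :=
      Nat.pow_le_pow_left (Nat.mul_le_mul_left _ (by omega)) _
    refine (Nat.mul_le_mul_left _ this).trans (le_of_eq ?_)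
    rw [← pow_two, ← pow_mul]; ring
  obtain ⟨X, hX, hX'⟩ := mk ν (fun k => f (x k) = true) _ rfl
  obtain ⟨Y, hY, hY'⟩ := mk ν (fun k => ¬ f (x k) = true) _ h1
  refine ⟨_, by omega, by omega, fun a => x (X a), fun a => x (Y a), hX, fun a => by simpa using hY a, fun i => ?_⟩
  have h6 := hs (some i)
  simp only [av, Option.elim] at h6
  rw [key (fun k => if x k i then 1 else 0)] at h6
  rw [hX' (fun k => if x k i then 1 else 0), hY' (fun k => if x k i then 1 else 0)]
  linarith

end Pool.Agent.H.MP_96963f_co
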